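import Pool.Agent.Helper29.E3.St3

/-!
# Project E3, module MRX: the range of `q = D v`
-/

set_option autoImplicit false

namespace Pool.Agent.Helper98.E3

open Pool.Agent.Helper29.E3 Pool.Agent.Helper49.PC
open Filter

theorem log_small (p e : ℕ) : ∃ x₀ : ℕ, ∀ M v : ℕ, x₀ ≤ M → (v : ℝ) ≤ Real.log M ^ p →
    v ^ e ≤ M ^ 2 := by
  have h1 : ∀ᶠ x : ℝ in atTop, ‖Real.log x ^ (p * e)‖ ≤ 1 * ‖id x‖ :=
    (Real.isLittleO_pow_log_id_atTop (n := p * e)).bound one_pos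
  have h2 := tendsto_natCast_atTop_atTop (R := ℝ) |>.eventually h1
  obtain ⟨x₀, hx₀⟩ := eventually_atTop.1 h2
  refine ⟨max x₀ 1, fun M v hM hv => ?_⟩
  have hM0 : x₀ ≤ M := le_trans (le_max_left _ _) hM
  have hM1 : 1 ≤ M := le_trans (le_max_right _ _) hM
  have h3 := hx₀ M hM0
  have hMr : (1 : ℝ) ≤ M := by exact_mod_cast hM1
  have hl : 0 ≤ Real.log M := Real.log_nonneg hMr
  rw [Real.norm_of_nonneg (pow_nonneg hl _), one_mul, id, Real.norm_of_nonneg (by linarith)] at h3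
  have h4 : ((v ^ e : ℕ) : ℝ) ≤ ((M ^ 2 : ℕ) : ℝ) := by
    push_cast
    calc (v : ℝ) ^ e ≤ (Real.log M ^ p) ^ e := pow_le_pow_left₀ (Nat.cast_nonneg v) hv e
      _ = Real.log M ^ (p * e) := by rw [pow_mul]
      _ ≤ M := h3
      _ = (M : ℝ) ^ 1 := (pow_one _).symm
      _ ≤ (M : ℝ) ^ 2 := pow_le_pow_right₀ hMr (by norm_num)
  exact_mod_cast h4

theorem hMRX : StMRX := by
  refine ⟨?_, ?_⟩
  · intro N p
    obtain ⟨x₀, hx₀⟩ := log_small p ((12 * N + 7) * (N + 1))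
    refine ⟨x₀, fun M D v hM hD hDM hv => ?_⟩
    have hv2 := hx₀ M v hM hv
    have h1 : D ^ (4 * N + 5) * v ^ (12 * N + 7) ≤ M ^ (8 * N + 2) := by
      rw [← Nat.pow_le_pow_iff_left (Nat.succ_ne_zero N)]
      calc (D ^ (4 * N + 5) * v ^ (12 * N + 7)) ^ (N + 1)
          = (D ^ (N + 1)) ^ (4 * N + 5) * v ^ ((12 * N + 7) * (N + 1)) := by
            rw [mul_pow, ← pow_mul, ← pow_mul, ← pow_mul, mul_comm (4 * N + 5) (N + 1)]
        _ ≤ (M ^ (2 * N)) ^ (4 * N + 5) * M ^ 2 :=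
            Nat.mul_le_mul (Nat.pow_le_pow_left hDM _) hv2
        _ = (M ^ (8 * N + 2)) ^ (N + 1) := by
            rw [← pow_mul, ← pow_add, ← pow_mul]
            congr 1
            ring
    calc (D * v) ^ (3 * (4 * N + 1) + 4)
        = D ^ (8 * N + 2) * (D ^ (4 * N + 5) * v ^ (12 * N + 7)) := by
          rw [show 3 * (4 * N + 1) + 4 = 12 * N + 7 by ring, mul_pow, ← mul_assoc, ← pow_add,
            show 8 * N + 2 + (4 * N + 5) = 12 * N + 7 by ring]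
      _ ≤ D ^ (8 * N + 2) * M ^ (8 * N + 2) := Nat.mul_le_mul_left _ h1
      _ = (D * M) ^ (2 * (4 * N + 1)) := by
          rw [← mul_pow, show 2 * (4 * N + 1) = 8 * N + 2 by ring]
  · intro N M D hM hD
    rw [← Nat.pow_le_pow_iff_left (Nat.succ_ne_zero N)]
    calc D ^ (N + 1) ≤ M ^ (2 * N) := hD
      _ ≤ M ^ (2 * (N + 1)) := Nat.pow_le_pow_right hM (by omega)
      _ = (M ^ 2) ^ (N + 1) := by rw [pow_mul]

end Pool.Agent.Helper98.E3
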